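import Mathlib
import Pool.Agent.H890.Mld9

/-!
MP_f23696_ag, Q1: the boundary can be removed. The lower semicontinuity of minimal log discrepancies
for pairs `(X, Δ)` with an effective `ℝ`-Cartier boundary is equivalent to the lower semicontinuity for
varieties without boundary.
-/

set_option autoImplicit false

namespace Pool.Agent.Results.MP_f23696_ag.BoundaryRemovalMld

open FF Pool.Agent.W602.GT Pool.Agent.Y172 Pool.Agent.R887 Pool.Agent.H890

/-- (1) Let `X` be a normal projective variety over `ℂ` of dimension `n ≥ 1` with function field `K`
(`y` is its generic point, in homogeneous coordinates), `Δ` an effective `ℚ`-divisor such that `b Δ`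
is Cartier, `b ≥ 2`. Then there is a normal projective variety `V` (without boundary) of dimension
`n + 2 b - 2`, with generic point `v` and function field `M`, birational to `X × P ^ (2 b - 2)` (`M` is
the field of rational functions in `2 b - 2` variables `t` over `K`), such that over every prime
divisor `Q` over `X` there is a prime divisor `P` over `V` with `MldReplaces`: if `x` is the centre of
`Q` on `X` and `p` the centre of `P` on `V`, then

* `p` lies over `x`, it has the same dimension as `x`, and it is a closed point if `x` is one;
* `V` is log canonical (klt) at `p` if the pair `(X, Δ)` is log canonical (klt) at `x`;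
* `mld_p (V) = mld_x (X, Δ) + 1 / b` if `x` is contained in the support of `Δ` and
  `mld_x (X, Δ) ≥ 0`;
* if the minimal log discrepancies of `X` (without boundary) are semicontinuous at `x` and those of
  `V` at `p`, then the minimal log discrepancies of the log canonical pair `(X, Δ)` are semicontinuous
  at `x`.

(2) The minimal log discrepancies are semicontinuous for all varieties (without boundary, in all
dimensions) if and only if they are semicontinuous for all log canonical pairs `(X, Δ)` with an
effective `ℝ`-Cartier divisor `Δ`.

(3) The same for all klt varieties, and all log canonical pairs `(X, Δ)` such that `X` is klt. -/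
theorem result :
    (∀ (K : Type) [Field K] [Algebra ℂ K] (n b N : ℕ) (y : Fin (N + 1) → K)
      (Δ : Place ℂ K → ℚ), Algebra.trdeg ℂ K = n → 1 ≤ n → 2 ≤ b → NormalModel y →
      Effective y Δ → CartierMul y n b Δ →
      ∃ (M : Type) (_ : Field M) (_ : Algebra ℂ M) (_ : Algebra K M) (_ : IsScalarTower ℂ K M)
        (t : Fin (2 * b - 2) → M) (N' : ℕ) (v : Fin (N' + 1) → M), AlgebraicIndependent K t ∧
        IntermediateField.adjoin K (Set.range t) = ⊤ ∧ NormalModel v ∧
        Algebra.trdeg ℂ M = (n + (2 * b - 2) : ℕ) ∧
        ∀ Q, Divisorial n Q → ∃ P, MldReplaces v (n + (2 * b - 2)) y n Δ b P Q) ∧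
    ((∀ n, VarietySemicontinuity n) ↔ ∀ n, PairSemicontinuity n) ∧
    ((∀ n, KltVarietySemicontinuity n) ↔ ∀ n, KltPairSemicontinuity n) :=
  ⟨fun K _ _ _ _ _ _ _ hn hn1 hb hy hΔ hcar => mld_removal K hb hn1 hn hy hΔ hcar,
    semicontinuity_iff⟩

end Pool.Agent.Results.MP_f23696_ag.BoundaryRemovalMld
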