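import Mathlib
import Pool.Agent.H895.SC.Et

/-!
# Lower semicontinuity of minimal log discrepancies of Newton nondegenerate complete intersections

`Y ∋ P`: an affine toric variety of dimension `d + r` with a fixed point, given by any strictly convex
rational cone of dimension `d + r` (simplicial or not). `X ⊂ Y`: a complete intersection of any
codimension `r ≥ 0` through `P`, the closure of the common zero set in the torus of Laurent
polynomials `F_1, ..., F_r`, of klt type at `P` (`KltType`). `B`: the boundary on `X` with
`K_X + B = (K_Y + X_1 + ... + X_r + ∑ β_i D_i + ∑ b_k H_k)|_X`, where the `D_i` are the toric prime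
divisors, the `H_k` are the closures of the zero sets in the torus of Laurent polynomials `G_k`, the
`β_i ≥ 0` and `0 ≤ b_k ≤ 1` are real numbers, and this divisor on `Y` is `ℝ`-Cartier at `P` (`Bdry`).
`F` and `G` are nondegenerate at `P` in the sense of Newton polyhedra (`NDI`): only the weights in the
interior of the cone are used, that is the compact faces of the Newton polyhedra.

(1) The function `x ↦ mld_x (X, B)` on the closed points of `X` is lower semicontinuous at `P`: there
is an open neighbourhood `U` of `P` in `X`, which does not depend on the coefficients `β_i`, `b_k`,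
such that `mld_x (X, B) ≥ mld_P (X, B)` for all the closed points `x` of `U`.

(2) Let `(X, B)` be any pair, `E x` a local equation of `K_X + B` at `x`. If `(X, B)` is, étale locally
at the closed point `x`, a pair as in (1) at `P` (`IsNondegAt`), then `mld (X, B)` is lower
semicontinuous at `x`; if this holds at all the closed points `x` then all the sets
`{x | mld_x (X, B) ≤ a}` are closed.

The proof of (1). Let `v` be a divisor over the closed point `x`, with the vector `w` of the orders of
the coordinates, which lies in the relative interior of a face of the cone. The reductions `ξ` of the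
(normalised) coordinates solve the initial equations. A Jacobian argument (`LowG`) with relations
between the `ξ` gives `a (v) ≥ la (w) + d - δ - ∑_(k ∈ κ) b_k`, where `la` is the toric log
discrepancy, `δ` the transcendence degree of the `ξ` together with the parameter of the one-parameter
group `w`, and `κ` is the set of the `k` such that `ξ` is on the initial form of `G_k`. There are only
finitely many combinatorial types of `(x, v)`. If the points `x` of one type are dense near `P` then an
ultraproduct of the `ξ` (`Ultra`), `δ` generic hyperplane sections (`GP`) and a discrete valuation with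
centre `P` (`DV`) give a solution `ζ` of the initial equations for a weight `W` in the interior of
the cone with sufficiently many independent log derivatives; by nondegeneracy at `W` (`Cnt`) there is
a set `J` of edges such that `w + ∑_J E_i` is in the interior of the cone and
`la (w + ∑_J E_i) ≤ la (w) + d - δ - ∑_(k ∈ κ) b_k`. Last, `mld_P (X, B) ≤ la (w')` for all `w'` in the
interior of the cone, by a walk from `w'` to a weight of a divisor over `P` (`Semi`).

Definitions: `Pool.Agent.H895.SC.Defs` (`NDI`, `IsRestrAt`), `SC.Semi` (`KltType`), `SC.Et`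
(`IsNondegAt`), `Pool.Agent.H895.ND.Defs` (`Bdry`), and in the library `Helper43K9.CI.Defs`
(`CIGerm`), `Helper58K9.AR.Mld` (`mld`), `Helper58K9.ET.Defs` (`Common`), `H436R3.Fol.Defs`,
`H436R3.KT.Defs`, `W497.Mld.Defs` (valuations, `IsCanOrd`, `AffVar`, `Pt`, `EffDiv`, `LocEq`,
`IsOverGerm`, `IsLogDisc`).
-/

set_option autoImplicit false

namespace Pool.Agent.Results.MP_f23696_ag.NewtonNondegenerate

open Pool.Agent.H436R3.KT Pool.Agent.W497.Mld MvPolynomial
open Pool.Agent.Helper43K9.CI (CIGerm)
open Pool.Agent.Helper58K9.AR (mld)
open Pool.Agent.Helper58K9.ET (common_refl)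
open Pool.Agent.H895.ND (Bdry)
open Pool.Agent.H895.SC

/-- The germs of (1) satisfy the assumption of (2) at `P`. -/
theorem mem {r d s : ℕ} {L : Type} [Field L] [Algebra ℂ L] (g : CIGerm r d L) (hk : KltType g)
    (b : Bdry g s) (hb : ∀ k, b.b k ≤ 1) (h : NDI g b.G) (B : EffDiv g.X)
    (E : ∀ x : Pt g.X, LocEq B x) (hE : ∀ x, IsRestrAt b (E x)) : IsNondegAt E g.P :=
  ⟨r, d, s, L, inferInstance, inferInstance, g, b, B, E, hk, hb, h, hE, common_refl E g.P⟩

/-- **Lower semicontinuity of minimal log discrepancies of Newton nondegenerate complete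
intersections.** -/
theorem result :
    (∀ (r d s : ℕ) (L : Type) [Field L] [Algebra ℂ L] (g : CIGerm r d L), KltType g →
      ∀ G : Fin s → MvPolynomial (Fin (d + r)) ℂ, (∀ k, aeval g.y (G k) ≠ 0) → NDI g G →
      ∃ f : g.X.R, g.P f ≠ 0 ∧ ∀ x : Pt g.X, x f ≠ 0 →
        ∀ b : Bdry g s, b.G = G → (∀ k, b.b k ≤ 1) →
        ∀ (B : EffDiv g.X) (e : LocEq B g.P) (e' : LocEq B x),
          IsRestrAt b e → IsRestrAt b e' → mld e ≤ mld e') ∧
    (∀ (K : Type) [Field K] [Algebra ℂ K] (X : AffVar K) (B : EffDiv X)
      (E : ∀ x : Pt X, LocEq B x),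
      (∀ x, IsNondegAt E x →
        ∃ f : X.R, x f ≠ 0 ∧ ∀ x' : Pt X, x' f ≠ 0 → mld (E x) ≤ mld (E x')) ∧
      ((∀ x, IsNondegAt E x) →
        ∀ a : EReal, ∃ I : Ideal X.R, ∀ x, mld (E x) ≤ a ↔ ∀ f ∈ I, x f = 0)) :=
  ⟨fun _ _ _ _ _ _ g hk G hG hnd => lsc_germ g hk G hG hnd,
    fun _ _ _ _ _ _ => ⟨fun _ hx => lsc_et hx, fun h => closed_of_lsc fun x => lsc_et (h x)⟩⟩

end Pool.Agent.Results.MP_f23696_ag.NewtonNondegenerate
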